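import Mathlib

/-!
# Representability of a q-matroid is not reflected by its projectivization

Let `K` be a finite extension of degree `m` of a finite field `F`.  The uniform `q`-matroid of rank
one on `F ^ (m + 1)` is not representable over `K`, but its projectivization matroid (all points
are parallel) is.
-/

set_option autoImplicit false

open Module Submodule
open scoped LinearAlgebra.Projectivization

namespace Pool.Agent.Results.MP_4d2e3d_co.NotReflected

/-- A `q`-matroid on the vector space `E` over the finite field `F` with `q` elements, given by its
rank function on the subspaces of `E`. -/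
structure QMatroid (F E : Type) [Field F] [AddCommGroup E] [Module F E] where
  rk : Submodule F E → ℕ
  rk_le : ∀ V, rk V ≤ finrank F V
  rk_mono : ∀ U V, U ≤ V → rk U ≤ rk V
  rk_submod : ∀ U V, rk (U ⊔ V) + rk (U ⊓ V) ≤ rk U + rk V

section Defs

variable {F E : Type} [Field F] [AddCommGroup E] [Module F E]

/-- The rank function of the projectivization matroid of `M`: the ground set is the set of the
one-dimensional subspaces of `E`, and the rank of a set `A` of them is the `M`-rank of their
span. -/
def projRank (M : QMatroid F E) (A : Set (ℙ F E)) : ℕ := M.rk (⨆ x ∈ A, x.submodule)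

/-- The matroid on the ground set `α` with rank function `r` is representable over `K`: it is the
matroid of a matrix `G` over `K`, with columns indexed by `α`. -/
def IsRepresentableMatroid (K : Type) [Field K] {α : Type} (r : Set α → ℕ) : Prop :=
  ∃ (k : ℕ) (G : Matrix (Fin k) α K), ∀ A : Set α,
    r A = finrank K (span K ((fun a => G.col a) '' A))

/-- The `q`-matroid `M` is representable over the extension field `K` of `F`: up to an `F`-linear
bijection `e` of the ground space with `F ^ n` it is the `q`-matroid of a `k × n` matrix `G` over
`K`, in which the rank of the column space of a matrix `Y` over `F` is the `K`-rank of `G * Y`. -/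
def IsRepresentableQMatroid (K : Type) [Field K] [Algebra F K] (M : QMatroid F E) : Prop :=
  ∃ (k n : ℕ) (G : Matrix (Fin k) (Fin n) K) (e : E ≃ₗ[F] (Fin n → F)),
    ∀ (V : Submodule F E) (s : ℕ) (Y : Matrix (Fin n) (Fin s) F),
      span F (Set.range Y.col) = V.map (e : E →ₗ[F] (Fin n → F)) →
        M.rk V = (G * Y.map (algebraMap F K)).rank

end Defs

/-- For all finite fields `F ⊆ K` there is a `q`-matroid over `F` whose projectivization matroid is
representable over `K`, while the `q`-matroid is not representable over `K`. -/
theorem result (F K : Type) [Field F] [Finite F] [Field K] [Finite K] [Algebra F K] :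
    ∃ (n : ℕ) (M : QMatroid F (Fin n → F)),
      IsRepresentableMatroid K (projRank M) ∧ ¬ IsRepresentableQMatroid K M := by
  classical
  refine ⟨finrank F K + 1, ⟨fun V => if V = ⊥ then 0 else 1, ?_, ?_, ?_⟩, ?_, ?_⟩
  · intro V
    split_ifs with h
    · exact Nat.zero_le _
    · exact Nat.one_le_iff_ne_zero.2 fun h0 => h (finrank_eq_zero.1 h0)
  · intro U V hUV
    by_cases hV : V = ⊥
    · subst hV
      rw [if_pos (le_bot_iff.1 hUV)]
      exact Nat.zero_le _
    · rw [if_neg hV]
      split_ifs <;> omega
  · intro U V
    by_cases hU : U = ⊥
    · subst hU
      rw [bot_sup_eq, bot_inf_eq, if_pos rfl]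
      omega
    · by_cases hV : V = ⊥
      · subst hV
        rw [sup_bot_eq, inf_bot_eq, if_pos rfl]
      · rw [if_neg hU, if_neg hV]
        split_ifs <;> omega
  · refine ⟨1, fun _ _ => 1, ?_⟩
    intro A
    have hcol : (fun a : ℙ F (Fin (finrank F K + 1) → F) =>
        Matrix.col (fun (_ : Fin 1) (_ : ℙ F (Fin (finrank F K + 1) → F)) => (1 : K)) a)
        = fun _ => (fun _ => 1 : Fin 1 → K) := by
      funext a i
      rfl
    change (if (⨆ x ∈ A, x.submodule) = (⊥ : Submodule F (Fin (finrank F K + 1) → F))
      then 0 else 1) = _
    rw [hcol]
    rcases A.eq_empty_or_nonempty with rfl | hA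
    · rw [Set.image_empty, span_empty, finrank_bot, if_pos]
      simp
    · rw [hA.image_const, finrank_span_singleton (fun h => one_ne_zero (congrFun h 0)), if_neg]
      obtain ⟨x, hx⟩ := hA
      intro h
      have h1 : x.submodule ≤ ⨆ x ∈ A, x.submodule :=
        le_iSup₂ (f := fun (y : ℙ F (Fin (finrank F K + 1) → F)) (_ : y ∈ A) => y.submodule) x hx
      rw [h, le_bot_iff] at h1
      have h2 := x.finrank_submodule
      rw [h1, finrank_bot] at h2
      omega
  · rintro ⟨k, n, G, e, hG⟩
    have hn : n = finrank F K + 1 := by
      have h := e.finrank_eq
      rw [finrank_fin_fun, finrank_fin_fun] at h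
      exact h.symm
    -- the rank of `G` is one
    have hG1 : G.rank = 1 := by
      have h := hG ⊤ n 1 (by
        rw [Submodule.map_top, LinearEquiv.range, eq_top_iff]
        rintro x -
        have hx : x = ∑ i, x i • (Matrix.col (1 : Matrix (Fin n) (Fin n) F) i) := by
          funext j
          simp [Matrix.col, Matrix.one_apply]
        rw [hx]
        exact sum_mem fun i _ => smul_mem _ _ (subset_span ⟨i, rfl⟩))
      change (if (⊤ : Submodule F (Fin (finrank F K + 1) → F)) = ⊥ then 0 else 1) = _ at h
      rw [if_neg top_ne_bot, Matrix.map_one _ (map_zero _) (map_one _), Matrix.mul_one] at h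
      exact h.symm
    -- the column space of `G`, of dimension one over `K`
    let C : Submodule K (Fin k → K) := LinearMap.range G.mulVecLin
    have hC : finrank K C = 1 := hG1
    have : Module.Finite F K := inferInstance
    have hCF : finrank F C = finrank F K := by
      rw [← finrank_mul_finrank F K C, hC, mul_one]
    -- the map `x ↦ G x`, restricted to the vectors over `F`
    let φ : (Fin n → F) →ₗ[F] C :=
      { toFun := fun x => ⟨G.mulVec (fun i => algebraMap F K (x i)), ⟨_, rfl⟩⟩
        map_add' := by
          intro x y
          apply Subtype.ext
          simp only [Pi.add_apply, map_add]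
          exact G.mulVec_add _ _
        map_smul' := by
          intro c x
          apply Subtype.ext
          simp only [Pi.smul_apply, smul_eq_mul, map_mul, RingHom.id_apply]
          have h : (fun i => algebraMap F K c * algebraMap F K (x i))
              = algebraMap F K c • fun i => algebraMap F K (x i) := rfl
          rw [h, Matrix.mulVec_smul]
          change _ = c • G.mulVec (fun i => algebraMap F K (x i))
          funext j
          simp [Algebra.smul_def] }
    have hker : ∃ x : Fin n → F, x ≠ 0 ∧ φ x = 0 := by
      by_contra hcon
      push Not at hcon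
      have hinj : Function.Injective φ := by
        rw [← LinearMap.ker_eq_bot, LinearMap.ker_eq_bot']
        intro x hx
        by_contra hx0
        exact hcon x hx0 hx
      have h := LinearMap.finrank_le_finrank_of_injective hinj
      rw [finrank_fin_fun, hCF] at h
      omega
    obtain ⟨x, hx0, hx⟩ := hker
    have h := hG (span F {e.symm x}) 1 (fun i _ => x i) (by
      rw [Submodule.map_span, Set.image_singleton]
      congr 1
      ext y
      simp only [Set.mem_range, Set.mem_singleton_iff]
      constructor
      · rintro ⟨i, rfl⟩
        change x = e (e.symm x)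
        rw [e.apply_symm_apply]
      · rintro rfl
        refine ⟨0, ?_⟩
        change x = e (e.symm x)
        rw [e.apply_symm_apply])
    change (if span F {e.symm x} = ⊥ then 0 else 1) = _ at h
    rw [if_neg (by
      rw [span_singleton_eq_bot]
      intro h0
      exact hx0 (by simpa using congrArg e h0))] at h
    have h0 : G * Matrix.map (fun (i : Fin n) (_ : Fin 1) => x i) (algebraMap F K) = 0 := by
      ext i j
      have h2 : G.mulVec (fun i => algebraMap F K (x i)) i = 0 :=
        congrFun (congrArg Subtype.val hx) i
      rw [Matrix.mul_apply, Matrix.zero_apply, ← h2]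
      rfl
    rw [h0, Matrix.rank_zero] at h
    exact one_ne_zero h

end Pool.Agent.Results.MP_4d2e3d_co.NotReflected
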